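import Pool.Agent.H15.LT.Check

/-!
# Latin triangles: compatible pairs found by computer
-/

set_option autoImplicit false
set_option maxRecDepth 100000

namespace Pool.Agent.H15.LT

/-- order 3 -/
def F3 : List (List ℕ) :=
  [[0, 1, 2],
  [2, 0],
  [1]]

/-- order 2 -/
def G3 : List (List ℕ) :=
  [[0, 2],
  [1]]

theorem chk3 : chk 3 F3 G3 = true := by
  decide +kernel

/-- order 13 -/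
def F13 : List (List ℕ) :=
  [[0, 8, 12, 9, 7, 6, 4, 2, 11, 3, 5, 10, 1],
  [7, 0, 5, 10, 8, 12, 6, 3, 9, 1, 4, 11],
  [11, 6, 0, 2, 10, 3, 1, 8, 4, 5, 7],
  [10, 9, 1, 0, 11, 7, 5, 12, 2, 4],
  [8, 7, 9, 12, 0, 1, 10, 11, 5],
  [5, 11, 4, 8, 2, 0, 7, 9],
  [3, 5, 2, 6, 9, 8, 0],
  [1, 4, 7, 11, 12, 10],
  [12, 10, 3, 1, 6],
  [4, 2, 6, 3],
  [6, 3, 8],
  [9, 12],
  [2]]

/-- order 12 -/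
def G13 : List (List ℕ) :=
  [[0, 8, 11, 9, 7, 6, 12, 5, 3, 4, 10, 1],
  [7, 0, 6, 10, 8, 4, 3, 2, 1, 5, 11],
  [12, 5, 0, 2, 10, 1, 11, 9, 4, 7],
  [10, 9, 1, 0, 12, 7, 8, 11, 5],
  [8, 7, 9, 11, 0, 5, 2, 4],
  [5, 3, 2, 8, 6, 0, 9],
  [11, 4, 12, 7, 1, 10],
  [6, 1, 10, 12, 3],
  [4, 2, 3, 6],
  [3, 6, 8],
  [9, 12],
  [2]]

theorem chk13 : chk 13 F13 G13 = true := by
  decide +kernel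

/-- order 15 -/
def F15 : List (List ℕ) :=
  [[2, 5, 8, 14, 13, 4, 3, 1, 9, 11, 7, 6, 12, 10, 0],
  [9, 2, 4, 10, 14, 13, 8, 12, 7, 6, 5, 11, 0, 3],
  [14, 10, 2, 13, 9, 12, 1, 8, 3, 7, 0, 5, 6],
  [8, 4, 6, 2, 10, 3, 9, 5, 0, 14, 11, 12],
  [6, 8, 5, 4, 2, 1, 0, 11, 10, 12, 14],
  [10, 6, 7, 11, 0, 2, 4, 13, 14, 5],
  [11, 14, 0, 5, 1, 10, 2, 6, 4],
  [0, 7, 14, 9, 3, 6, 13, 2],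
  [5, 12, 11, 1, 4, 8, 10],
  [3, 13, 12, 8, 7, 9],
  [12, 9, 1, 3, 8],
  [13, 3, 9, 7],
  [7, 1, 13],
  [4, 11],
  [1]]

/-- order 14 -/
def G15 : List (List ℕ) :=
  [[2, 9, 14, 4, 10, 8, 13, 7, 12, 5, 11, 6, 3, 0],
  [5, 2, 8, 13, 6, 3, 1, 9, 14, 7, 12, 0, 10],
  [8, 14, 2, 10, 9, 4, 11, 3, 5, 0, 6, 12],
  [10, 6, 4, 2, 8, 1, 12, 0, 11, 14, 5],
  [4, 13, 5, 14, 2, 0, 6, 10, 7, 11],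
  [14, 11, 10, 0, 1, 2, 5, 4, 6],
  [6, 0, 3, 7, 13, 9, 2, 14],
  [12, 5, 11, 1, 4, 10, 8],
  [7, 8, 9, 3, 12, 13],
  [9, 12, 1, 8, 3],
  [3, 7, 13, 9],
  [13, 1, 7],
  [11, 4],
  [1]]

theorem chk15 : chk 15 F15 G15 = true := by
  decide +kernel

/-- order 17 -/
def F17 : List (List ℕ) :=
  [[0, 8, 11, 16, 13, 2, 12, 1, 9, 7, 15, 3, 6, 10, 5, 4, 14],
  [7, 0, 8, 1, 12, 5, 16, 6, 14, 3, 11, 9, 4, 15, 10, 2],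
  [12, 7, 0, 13, 16, 11, 8, 4, 5, 10, 2, 6, 9, 14, 15],
  [15, 2, 14, 0, 3, 13, 1, 10, 8, 4, 7, 11, 12, 5],
  [14, 11, 15, 4, 0, 10, 7, 5, 12, 1, 3, 2, 8],
  [1, 6, 12, 14, 9, 0, 15, 13, 16, 2, 8, 4],
  [11, 15, 7, 2, 8, 16, 0, 14, 13, 6, 9],
  [2, 5, 3, 9, 6, 14, 13, 0, 15, 11],
  [10, 13, 6, 7, 11, 15, 14, 16, 0],
  [8, 4, 9, 3, 2, 1, 5, 12],
  [16, 12, 1, 8, 4, 7, 10],
  [4, 10, 5, 12, 1, 3],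
  [5, 3, 10, 11, 7],
  [9, 16, 13, 6],
  [6, 9, 16],
  [3, 1],
  [13]]

/-- order 16 -/
def G17 : List (List ℕ) :=
  [[0, 8, 11, 7, 1, 12, 5, 16, 6, 3, 4, 9, 10, 15, 2, 14],
  [7, 0, 16, 13, 14, 15, 12, 9, 2, 8, 11, 6, 5, 10, 4],
  [12, 15, 0, 2, 11, 1, 13, 8, 10, 7, 3, 4, 14, 5],
  [8, 14, 1, 0, 3, 7, 10, 5, 4, 11, 2, 12, 15],
  [2, 13, 12, 4, 0, 14, 16, 15, 1, 9, 6, 8],
  [11, 16, 2, 8, 13, 0, 6, 14, 7, 15, 9],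
  [6, 11, 14, 9, 15, 5, 0, 13, 3, 2],
  [15, 10, 7, 6, 16, 13, 14, 0, 11],
  [5, 1, 9, 3, 2, 8, 4, 12],
  [4, 7, 8, 12, 10, 16, 1],
  [3, 12, 4, 1, 5, 10],
  [10, 5, 3, 11, 7],
  [9, 6, 13, 16],
  [16, 9, 6],
  [1, 3],
  [13]]

theorem chk17 : chk 17 F17 G17 = true := by
  decide +kernel

/-- order 19 -/
def F19 : List (List ℕ) :=
  [[0, 7, 12, 11, 10, 16, 2, 1, 8, 4, 6, 9, 3, 5, 14, 17, 13, 18, 15],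
  [8, 0, 4, 1, 12, 17, 18, 2, 15, 11, 13, 6, 14, 7, 10, 3, 9, 5],
  [11, 3, 0, 14, 5, 7, 13, 10, 4, 12, 9, 16, 18, 8, 1, 15, 2],
  [12, 2, 13, 0, 9, 11, 17, 16, 7, 18, 3, 5, 6, 15, 4, 8],
  [9, 11, 6, 10, 0, 5, 14, 15, 1, 8, 2, 3, 17, 12, 13],
  [15, 18, 8, 12, 6, 0, 4, 7, 17, 16, 1, 11, 5, 10],
  [1, 17, 14, 18, 13, 3, 0, 12, 10, 15, 5, 2, 4],
  [2, 1, 9, 15, 16, 8, 11, 0, 14, 10, 7, 12],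
  [7, 16, 3, 8, 2, 18, 9, 13, 0, 14, 17],
  [3, 12, 11, 17, 7, 15, 16, 9, 13, 0],
  [5, 14, 10, 4, 1, 2, 6, 8, 18],
  [10, 5, 15, 6, 4, 12, 1, 11],
  [4, 13, 17, 5, 18, 6, 3],
  [6, 8, 7, 16, 11, 9],
  [13, 9, 2, 3, 14],
  [18, 4, 16, 7],
  [14, 10, 1],
  [17, 6],
  [16]]

/-- order 18 -/
def G19 : List (List ℕ) :=
  [[0, 7, 11, 4, 2, 14, 1, 8, 12, 5, 6, 3, 10, 13, 17, 9, 18, 15],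
  [8, 0, 12, 10, 11, 18, 2, 1, 16, 3, 9, 4, 7, 14, 15, 13, 5],
  [12, 11, 0, 16, 6, 9, 7, 17, 15, 13, 5, 18, 8, 4, 3, 2],
  [3, 9, 15, 0, 17, 13, 10, 14, 11, 2, 12, 6, 5, 1, 8],
  [1, 12, 5, 18, 0, 4, 11, 7, 8, 6, 16, 17, 15, 10],
  [13, 17, 10, 14, 3, 0, 15, 18, 4, 1, 2, 5, 12],
  [2, 1, 8, 9, 12, 16, 0, 15, 10, 7, 11, 14],
  [7, 2, 18, 13, 8, 17, 16, 0, 14, 9, 3],
  [11, 15, 16, 12, 7, 3, 9, 13, 0, 17],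
  [6, 4, 14, 1, 5, 2, 8, 10, 18],
  [5, 10, 6, 11, 15, 1, 12, 4],
  [4, 3, 17, 5, 18, 6, 13],
  [9, 8, 7, 6, 16, 11],
  [14, 13, 3, 2, 9],
  [18, 16, 4, 7],
  [10, 14, 1],
  [17, 6],
  [16]]

theorem chk19 : chk 19 F19 G19 = true := by
  decide +kernel

end Pool.Agent.H15.LT
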