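import Pool.Agent.H15.LT.Prod

/-!
# Latin triangles: compatible pairs from tables
-/

set_option autoImplicit false

namespace Pool.Agent.H15.LT

/-- entry of a table -/
def tv (T : List (List ℕ)) (a b : ℕ) : ℕ := (T.getD (a - 1) []).getD (b - 1) 0

/-- the `p`-th entry of the row `a` in direction `d` -/
def rowN (T : List (List ℕ)) (m d a p : ℕ) : ℕ :=
  if d = 0 then tv T a p else if d = 1 then tv T (m - a - p) a else tv T p (m - a - p)

/-- a row of the table as a list -/
def rowL (T : List (List ℕ)) (m d a : ℕ) : List ℕ :=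
  (List.range (m - a - 1)).map (fun p => rowN T m d a (p + 1))

/-- no repeated entries -/
def nodupB : List ℕ → Bool
  | [] => true
  | x :: l => !(l.elem x) && nodupB l

/-- the check for one row of `F` (coordinate sum `n+2`) -/
def chF (n : ℕ) (T : List (List ℕ)) (d a : ℕ) : Bool :=
  nodupB (rowL T (n + 2) d a) && (rowL T (n + 2) d a).all (fun v => decide (v < n)) &&
    (List.range n).all (fun s => (rowL T (n + 2) d (n + 2 - a)).elem s !=
      (rowL T (n + 2) d a).elem s)

/-- the check for one row of `G` (coordinate sum `n+1`) -/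
def chG (n : ℕ) (T T' : List (List ℕ)) (d a : ℕ) : Bool :=
  nodupB (rowL T' (n + 1) d a) && (rowL T' (n + 1) d a).all (fun v => decide (v < n)) &&
    (List.range n).all (fun s => (rowL T' (n + 1) d a).elem s ==
      (rowL T (n + 2) d (a + 1)).elem s)

/-- the whole check -/
def chk (n : ℕ) (T T' : List (List ℕ)) : Bool :=
  (List.range 3).all fun d => (List.range (n + 1)).all fun a =>
    chF n T d (a + 1) && chG n T T' d (a + 1)

theorem nodupB_iff (l : List ℕ) (h : nodupB l = true) : l.Nodup := by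
  induction l with
  | nil => exact List.nodup_nil
  | cons x l ih =>
    unfold nodupB at h
    rw [Bool.and_eq_true] at h
    rw [List.nodup_cons]
    refine ⟨?_, ih h.2⟩
    intro hx
    have h1 : l.elem x = true := List.elem_eq_true_of_mem hx
    rw [h1] at h
    exact absurd h.1 (by decide)

/-- the map given by a table -/
def tf (n : ℕ) [NeZero n] (T : List (List ℕ)) (x : Fin 3 → ℕ) : Fin n :=
  Fin.ofNat n (tv T (x 0) (x 1))

/-- the next coordinate -/
def nx (d : Fin 3) (x : Fin 3 → ℕ) : ℕ := if d = 0 then x 1 else if d = 1 then x 2 else x 0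

/-- the cell with given row and next coordinate -/
def cl (m : ℕ) (d : Fin 3) (a p : ℕ) : Fin 3 → ℕ :=
  if d = 0 then ![a, p, m - a - p] else if d = 1 then ![m - a - p, a, p] else ![p, m - a - p, a]

theorem tv_row (T : List (List ℕ)) {m : ℕ} {x : Fin 3 → ℕ} (hx : Cell m x) (d : Fin 3) :
    tv T (x 0) (x 1) = rowN T m d (x d) (nx d x) := by
  have h := hx.2
  have h0 := hx.1 0
  have h1 := hx.1 1
  have h2 := hx.1 2
  fin_cases d
  · simp [rowN, nx]
  · have e : m - x 1 - x 2 = x 0 := by omega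
    simp [rowN, nx, e]
  · have e : m - x 2 - x 0 = x 1 := by omega
    simp [rowN, nx, e]

theorem nx_range {m : ℕ} {x : Fin 3 → ℕ} (hx : Cell m x) (d : Fin 3) :
    1 ≤ nx d x ∧ nx d x + x d + 1 ≤ m := by
  have h := hx.2
  have h0 := hx.1 0
  have h1 := hx.1 1
  have h2 := hx.1 2
  fin_cases d
  · simp only [nx]
    simp
    omega
  · simp only [nx]
    simp
    omega
  · simp only [nx]
    simp
    omega

theorem cl_spec {m a p : ℕ} (d : Fin 3) (ha : 1 ≤ a) (hp : 1 ≤ p) (hm : a + p + 1 ≤ m) :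
    Cell m (cl m d a p) ∧ cl m d a p d = a ∧ nx d (cl m d a p) = p := by
  fin_cases d
  · refine ⟨⟨fun e => ?_, ?_⟩, ?_, ?_⟩
    · fin_cases e <;> simp [cl] <;> omega
    · simp [cl]
      omega
    · simp [cl]
    · simp [cl, nx]
  · refine ⟨⟨fun e => ?_, ?_⟩, ?_, ?_⟩
    · fin_cases e <;> simp [cl] <;> omega
    · simp [cl]
      omega
    · simp [cl]
    · simp [cl, nx]
  · refine ⟨⟨fun e => ?_, ?_⟩, ?_, ?_⟩
    · fin_cases e <;> simp [cl] <;> omega
    · simp [cl]
      omega
    · simp [cl]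
    · simp [cl, nx]

theorem cell_ext {m : ℕ} {x y : Fin 3 → ℕ} (hx : Cell m x) (hy : Cell m y) (d : Fin 3)
    (h1 : x d = y d) (h2 : nx d x = nx d y) : x = y := by
  have h := hx.2
  have h' := hy.2
  funext e
  fin_cases d <;> fin_cases e <;> simp [nx] at h1 h2 ⊢ <;> omega

theorem row_of_check {n : ℕ} [NeZero n] (T : List (List ℕ)) {m a : ℕ} (d : Fin 3) (ha : 1 ≤ a)
    (h1 : (rowL T m d a).Nodup) (h2 : ∀ v ∈ rowL T m d a, v < n) :
    RowBij m (tf n T) d a (fun s => (s : ℕ) ∈ rowL T m d a) := by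
  have hval : ∀ x, Cell m x → x d = a → tv T (x 0) (x 1) ∈ rowL T m d a ∧
      tv T (x 0) (x 1) = rowN T m d a (nx d x) := by
    intro x hx hxd
    have e := tv_row T hx d
    rw [hxd] at e
    have hr := nx_range hx d
    rw [hxd] at hr
    refine ⟨?_, e⟩
    rw [e]
    unfold rowL
    rw [List.mem_map]
    refine ⟨nx d x - 1, ?_, ?_⟩
    · rw [List.mem_range]
      omega
    · rw [Nat.sub_add_cancel hr.1]
  have hfin : ∀ x, Cell m x → x d = a → ((tf n T x : Fin n) : ℕ) = tv T (x 0) (x 1) := by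
    intro x hx hxd
    have := h2 _ (hval x hx hxd).1
    unfold tf
    rw [Fin.val_ofNat]
    exact Nat.mod_eq_of_lt this
  constructor
  · intro x hx hxd
    show ((tf n T x : Fin n) : ℕ) ∈ _
    rw [hfin x hx hxd]
    exact (hval x hx hxd).1
  · intro s hs
    have hs' := hs
    unfold rowL at hs'
    rw [List.mem_map] at hs'
    obtain ⟨p, hp, hps⟩ := hs'
    rw [List.mem_range] at hp
    obtain ⟨c1, c2, c3⟩ := cl_spec (m := m) (a := a) (p := p + 1) d ha (by omega) (by omega)
    refine ⟨cl m d a (p + 1), ⟨c1, c2, ?_⟩, ?_⟩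
    · apply Fin.ext
      rw [hfin _ c1 c2, (hval _ c1 c2).2, c3, hps]
    · rintro y ⟨y1, y2, y3⟩
      apply cell_ext y1 c1 d (by rw [y2, c2])
      rw [c3]
      have e1 := (hval y y1 y2).2
      have e2 : tv T (y 0) (y 1) = s := by rw [← hfin y y1 y2, y3]
      rw [e1] at e2
      have hr := nx_range y1 d
      rw [y2] at hr
      have e3 : rowN T m d a ((nx d y - 1) + 1) = rowN T m d a (p + 1) := by
        rw [Nat.sub_add_cancel hr.1, e2, hps]
      have e4 := List.inj_on_of_nodup_map h1 (x := nx d y - 1) (y := p)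
        (by rw [List.mem_range]; omega) (by rw [List.mem_range]; omega) e3
      omega

theorem pair_of_check (n : ℕ) [NeZero n] (T T' : List (List ℕ)) (h : chk n T T' = true) :
    Pair n (Fin n) (tf n T) (tf n T') (fun d a s => (s : ℕ) ∈ rowL T (n + 2) d a) := by
  unfold chk at h
  rw [List.all_eq_true] at h
  have hch : ∀ (d : Fin 3) (a : ℕ), 1 ≤ a → a ≤ n + 1 → chF n T d a = true ∧ chG n T T' d a = true := by
    intro d a ha1 ha2
    have h1 := h (d : ℕ) (List.mem_range.mpr d.2)
    rw [List.all_eq_true] at h1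
    have h2 := h1 (a - 1) (List.mem_range.mpr (by omega))
    rw [Nat.sub_add_cancel ha1, Bool.and_eq_true] at h2
    exact h2
  have hF : ∀ (d : Fin 3) (a : ℕ), 1 ≤ a → a ≤ n + 1 → (rowL T (n + 2) d a).Nodup ∧
      (∀ v ∈ rowL T (n + 2) d a, v < n) ∧
      ∀ s : Fin n, (s : ℕ) ∈ rowL T (n + 2) d (n + 2 - a) ↔ ¬ (s : ℕ) ∈ rowL T (n + 2) d a := by
    intro d a ha1 ha2
    have h1 := (hch d a ha1 ha2).1
    unfold chF at h1
    rw [Bool.and_eq_true, Bool.and_eq_true, List.all_eq_true, List.all_eq_true] at h1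
    refine ⟨nodupB_iff _ h1.1.1, fun v hv => of_decide_eq_true (h1.1.2 v hv), fun s => ?_⟩
    have h2 := h1.2 (s : ℕ) (List.mem_range.mpr s.2)
    rw [bne_iff_ne] at h2
    constructor
    · intro h3 h4
      apply h2
      rw [List.elem_eq_true_of_mem h3, List.elem_eq_true_of_mem h4]
    · intro h3
      by_contra h4
      apply h2
      rw [Bool.eq_false_iff.mpr (fun h5 => h3 (List.mem_of_elem_eq_true h5)),
        Bool.eq_false_iff.mpr (fun h5 => h4 (List.mem_of_elem_eq_true h5))]
  have hG : ∀ (d : Fin 3) (a : ℕ), 1 ≤ a → a ≤ n + 1 → (rowL T' (n + 1) d a).Nodup ∧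
      (∀ v ∈ rowL T' (n + 1) d a, v < n) ∧
      ∀ s : Fin n, (s : ℕ) ∈ rowL T' (n + 1) d a ↔ (s : ℕ) ∈ rowL T (n + 2) d (a + 1) := by
    intro d a ha1 ha2
    have h1 := (hch d a ha1 ha2).2
    unfold chG at h1
    rw [Bool.and_eq_true, Bool.and_eq_true, List.all_eq_true, List.all_eq_true] at h1
    refine ⟨nodupB_iff _ h1.1.1, fun v hv => of_decide_eq_true (h1.1.2 v hv), fun s => ?_⟩
    have h2 := h1.2 (s : ℕ) (List.mem_range.mpr s.2)
    rw [beq_iff_eq] at h2
    constructor
    · intro h3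
      exact List.mem_of_elem_eq_true (h2 ▸ List.elem_eq_true_of_mem h3)
    · intro h3
      exact List.mem_of_elem_eq_true (h2.symm ▸ List.elem_eq_true_of_mem h3)
  have hn : 1 ≤ n := Nat.one_le_iff_ne_zero.mpr (NeZero.ne n)
  refine ⟨?_, ?_, ?_, ?_⟩
  · intro d s
    have h1 := (hF d (n + 1) (by omega) le_rfl).2.2 s
    rw [show n + 2 - (n + 1) = 1 by omega] at h1
    rw [h1]
    have h2 : rowL T (n + 2) d (n + 1) = [] := by
      unfold rowL
      rw [show n + 2 - (n + 1) - 1 = 0 by omega]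
      rfl
    rw [h2]
    exact List.not_mem_nil
  · intro d a s ha1 ha2
    exact (hF d a ha1 ha2).2.2 s
  · intro d a ha1 ha2
    exact row_of_check T d ha1 (hF d a ha1 (by omega)).1 (hF d a ha1 (by omega)).2.1
  · intro d a ha1 ha2
    have h1 := row_of_check T' d ha1 (hG d a ha1 (by omega)).1 (hG d a ha1 (by omega)).2.1
    have h2 : (fun s : Fin n => (s : ℕ) ∈ rowL T' (n + 1) d a) =
        fun s : Fin n => (s : ℕ) ∈ rowL T (n + 2) d (a + 1) := by
      funext s
      exact propext ((hG d a ha1 (by omega)).2.2 s)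
    rw [h2] at h1
    exact h1

end Pool.Agent.H15.LT
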