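import Pool.Agent.H15.LT.Base

/-!
# Latin triangles: the multiplicative family
-/

set_option autoImplicit false

namespace Pool.Agent.H15.LT

/-- there is a compatible pair of odd order `n` -/
def Good (n : ℕ) : Prop := Odd n ∧ ∃ (F G : (Fin 3 → ℕ) → Fin n) (U : Fin 3 → ℕ → Fin n → Prop),
  Pair n (Fin n) F G U

theorem pair_equiv {n : ℕ} {S S' : Type} {F G : (Fin 3 → ℕ) → S} {U : Fin 3 → ℕ → S → Prop}
    (e : S ≃ S') (h : Pair n S F G U) :
    Pair n S' (fun x => e (F x)) (fun x => e (G x)) (fun d a s => U d a (e.symm s)) := by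
  have row : ∀ {m : ℕ} {H : (Fin 3 → ℕ) → S} {d : Fin 3} {a : ℕ} {W : S → Prop},
      RowBij m H d a W → RowBij m (fun x => e (H x)) d a (fun s => W (e.symm s)) := by
    intro m H d a W hW
    constructor
    · intro x hx hxd
      show W (e.symm (e (H x)))
      rw [e.symm_apply_apply]
      exact hW.1 x hx hxd
    · intro s hs
      obtain ⟨x, ⟨h1, h2, h3⟩, h4⟩ := hW.2 (e.symm s) hs
      refine ⟨x, ⟨h1, h2, ?_⟩, ?_⟩
      · show e (H x) = s
        rw [h3, e.apply_symm_apply]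
      · rintro y ⟨y1, y2, y3⟩
        apply h4 y
        refine ⟨y1, y2, ?_⟩
        rw [← y3]
        exact (e.symm_apply_apply _).symm
  exact ⟨fun d s => h.one d _, fun d a s => h.compl d a _, fun d a h1 h2 => row (h.hF d a h1 h2),
    fun d a h1 h2 => row (h.hG d a h1 h2)⟩

theorem good_mul {n k : ℕ} (hn : Good n) (hk : Good k) : Good (k * n) := by
  obtain ⟨on, F, G, U, hP⟩ := hn
  obtain ⟨ok, f, g, u, hp⟩ := hk
  refine ⟨ok.mul on, ?_⟩
  have hk1 : 1 ≤ k := ok.pos
  have h := pair_prod hk1 hP hp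
  have h' := pair_equiv ((Equiv.prodComm _ _).trans finProdFinEquiv) h
  exact ⟨_, _, _, h'⟩

theorem good_of_check (n : ℕ) [NeZero n] (ho : Odd n) (T T' : List (List ℕ))
    (h : chk n T T' = true) : Good n :=
  ⟨ho, _, _, _, pair_of_check n T T' h⟩

theorem good_one : Good 1 := good_of_check 1 odd_one [[0]] [] (by decide)

/-- lines of an odd latin triangle -/
theorem line_odd {n : ℕ} {F G : (Fin 3 → ℕ) → Fin n} {U : Fin 3 → ℕ → Fin n → Prop}
    (h : Pair n (Fin n) F G U) (d : Fin 3) (i : ℕ) (h1 : 1 ≤ i) (h2 : 2 * i ≤ n + 1) (s : Fin n) :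
    ∃! x, Cell (n + 2) x ∧ (x d = i ∨ x d + i = n + 2) ∧ F x = s := by
  have hin : i ≤ n := by omega
  by_cases hs : U d i s
  · obtain ⟨x, ⟨x1, x2, x3⟩, hx⟩ := (h.hF d i h1 hin).2 s hs
    refine ⟨x, ⟨x1, Or.inl x2, x3⟩, ?_⟩
    rintro y ⟨y1, y2, y3⟩
    rcases y2 with y2 | y2
    · exact hx y ⟨y1, y2, y3⟩
    · exfalso
      have hy := y1.1 d
      have hy' := cell_le y1 d
      have h4 := (h.hF d (y d) hy (by omega)).1 y y1 rfl
      rw [y3] at h4
      have h5 := h.compl d i s h1 (by omega)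
      rw [show n + 2 - i = y d by omega] at h5
      exact (h5.mp h4) hs
  · have hi2 : 2 ≤ i := by
      rcases Nat.lt_or_ge i 2 with h3 | h3
      · exfalso
        apply hs
        rw [show i = 1 by omega]
        exact h.one d s
      · exact h3
    have hs' : U d (n + 2 - i) s := (h.compl d i s h1 (by omega)).mpr hs
    obtain ⟨x, ⟨x1, x2, x3⟩, hx⟩ := (h.hF d (n + 2 - i) (by omega) (by omega)).2 s hs'
    refine ⟨x, ⟨x1, Or.inr (by omega), x3⟩, ?_⟩
    rintro y ⟨y1, y2, y3⟩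
    rcases y2 with y2 | y2
    · exfalso
      apply hs
      have h4 := (h.hF d i h1 hin).1 y y1 y2
      rwa [y3] at h4
    · exact hx y ⟨y1, by omega, y3⟩

/-- lines of the even latin triangle -/
theorem line_even {n : ℕ} {F G : (Fin 3 → ℕ) → Fin n} {U : Fin 3 → ℕ → Fin n → Prop}
    (h : Pair n (Fin n) F G U) (d : Fin 3) (i : ℕ) (h1 : 1 ≤ i) (h2 : 2 * i ≤ n) (s : Fin n) :
    ∃! x, Cell (n + 1) x ∧ (x d = i ∨ x d + i = n) ∧ G x = s := by
  have hin : i ≤ n := by omega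
  by_cases hs : U d (i + 1) s
  · obtain ⟨x, ⟨x1, x2, x3⟩, hx⟩ := (h.hG d i h1 hin).2 s hs
    refine ⟨x, ⟨x1, Or.inl x2, x3⟩, ?_⟩
    rintro y ⟨y1, y2, y3⟩
    rcases y2 with y2 | y2
    · exact hx y ⟨y1, y2, y3⟩
    · exfalso
      have hy := y1.1 d
      have h4 := (h.hG d (y d) hy (by omega)).1 y y1 rfl
      rw [y3] at h4
      have h5 := h.compl d (i + 1) s (by omega) (by omega)
      rw [show n + 2 - (i + 1) = y d + 1 by omega] at h5
      exact (h5.mp h4) hs
  · have hs' : U d (n - i + 1) s := by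
      have := (h.compl d (i + 1) s (by omega) (by omega)).mpr hs
      rwa [show n + 2 - (i + 1) = n - i + 1 by omega] at this
    have hni : n - i ≤ n := by omega
    have hni1 : 1 ≤ n - i := by omega
    obtain ⟨x, ⟨x1, x2, x3⟩, hx⟩ := (h.hG d (n - i) hni1 hni).2 s hs'
    refine ⟨x, ⟨x1, Or.inr (by omega), x3⟩, ?_⟩
    rintro y ⟨y1, y2, y3⟩
    rcases y2 with y2 | y2
    · exfalso
      apply hs
      have h4 := (h.hG d i h1 hin).1 y y1 y2
      rwa [y3] at h4
    · exact hx y ⟨y1, by omega, y3⟩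

end Pool.Agent.H15.LT
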