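import Mathlib

/-!
# Latin triangles: compatible pairs and their product

A compatible pair of order `n`: `F` on the cells with coordinate sum `n+2` (a latin triangle of odd
order `n`), `G` on the cells with coordinate sum `n+1` (a latin triangle of order `n-1`), with the same
symbols, such that in each direction the symbols of the row `a` of `G` are those of the row `a+1` of
`F`.  Subdivision of the triangle of order `kn` into triangles of order `k` and inverted triangles of
order `k-1` gives a product of compatible pairs.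
-/

set_option autoImplicit false

namespace Pool.Agent.H15.LT

/-- cells: triples of positive integers with sum `m` -/
def Cell (m : ℕ) (x : Fin 3 → ℕ) : Prop := (∀ d, 1 ≤ x d) ∧ x 0 + x 1 + x 2 = m

/-- on the cells with `x d = a` the map `F` is a bijection onto `U` -/
def RowBij {S : Type} (m : ℕ) (F : (Fin 3 → ℕ) → S) (d : Fin 3) (a : ℕ) (U : S → Prop) : Prop :=
  (∀ x, Cell m x → x d = a → U (F x)) ∧ ∀ s, U s → ∃! x, Cell m x ∧ x d = a ∧ F x = s

/-- compatible pair -/
structure Pair (n : ℕ) (S : Type) (F G : (Fin 3 → ℕ) → S) (U : Fin 3 → ℕ → S → Prop) : Prop where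
  one : ∀ d s, U d 1 s
  compl : ∀ d a s, 1 ≤ a → a ≤ n + 1 → (U d (n + 2 - a) s ↔ ¬ U d a s)
  hF : ∀ d a, 1 ≤ a → a ≤ n → RowBij (n + 2) F d a (U d a)
  hG : ∀ d a, 1 ≤ a → a ≤ n → RowBij (n + 1) G d a (U d (a + 1))

section dec

variable {k : ℕ}

/-- coarse coordinate -/
def qc (k : ℕ) (x : Fin 3 → ℕ) : Fin 3 → ℕ := fun d => (x d - 1) / k + 1

/-- fine coordinate -/
def rc (k : ℕ) (x : Fin 3 → ℕ) : Fin 3 → ℕ := fun d => (x d - 1) % k + 1

/-- the cell with given coarse and fine coordinates -/
def mk (k : ℕ) (X ξ : Fin 3 → ℕ) : Fin 3 → ℕ := fun d => k * (X d - 1) + ξ d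

/-- reflected fine coordinates -/
def inv (k : ℕ) (ξ : Fin 3 → ℕ) : Fin 3 → ℕ := fun d => k + 1 - ξ d

theorem q_pos (x : Fin 3 → ℕ) (d : Fin 3) : 1 ≤ qc k x d := Nat.le_add_left _ _

theorem r_pos (x : Fin 3 → ℕ) (d : Fin 3) : 1 ≤ rc k x d := Nat.le_add_left _ _

theorem r_le (hk : 1 ≤ k) (x : Fin 3 → ℕ) (d : Fin 3) : rc k x d ≤ k := by
  have := Nat.mod_lt (x d - 1) hk
  unfold rc
  omega

theorem dec_eq (x : Fin 3 → ℕ) (d : Fin 3) (hx : 1 ≤ x d) :
    x d = k * (qc k x d - 1) + rc k x d := by
  have h := Nat.div_add_mod (x d - 1) k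
  unfold qc rc
  rw [Nat.add_sub_cancel]
  omega

theorem mk_dec (x : Fin 3 → ℕ) (hx : ∀ d, 1 ≤ x d) : mk k (qc k x) (rc k x) = x := by
  funext d
  exact (dec_eq x d (hx d)).symm

theorem q_mk (X ξ : Fin 3 → ℕ) (d : Fin 3) (hX : 1 ≤ X d) (h1 : 1 ≤ ξ d) (h2 : ξ d ≤ k) :
    qc k (mk k X ξ) d = X d := by
  unfold qc mk
  have hk : 0 < k := by omega
  have e : k * (X d - 1) + ξ d - 1 = (ξ d - 1) + k * (X d - 1) := by omega
  rw [e, Nat.add_mul_div_left _ _ hk, Nat.div_eq_of_lt (by omega)]
  omega

theorem r_mk (X ξ : Fin 3 → ℕ) (d : Fin 3) (h1 : 1 ≤ ξ d) (h2 : ξ d ≤ k) :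
    rc k (mk k X ξ) d = ξ d := by
  unfold rc mk
  have e : k * (X d - 1) + ξ d - 1 = (ξ d - 1) + k * (X d - 1) := by omega
  rw [e, Nat.add_mul_mod_self_left, Nat.mod_eq_of_lt (by omega)]
  omega

/-- the sum of the coordinates -/
theorem sum_dec (x : Fin 3 → ℕ) (hx : ∀ d, 1 ≤ x d) :
    x 0 + x 1 + x 2 + 3 * k = k * (qc k x 0 + qc k x 1 + qc k x 2) + (rc k x 0 + rc k x 1 + rc k x 2) := by
  have h0 := dec_eq (k := k) x 0 (hx 0)
  have h1 := dec_eq (k := k) x 1 (hx 1)
  have h2 := dec_eq (k := k) x 2 (hx 2)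
  have e : ∀ d, k * (qc k x d - 1) + k = k * qc k x d := by
    intro d
    have hq := q_pos (k := k) x d
    calc k * (qc k x d - 1) + k = k * (qc k x d - 1 + 1) := by ring
      _ = k * qc k x d := by rw [Nat.sub_add_cancel hq]
  have e0 := e 0
  have e1 := e 1
  have e2 := e 2
  rw [Nat.mul_add, Nat.mul_add]
  omega

theorem sum_mk (X ξ : Fin 3 → ℕ) (hX : ∀ d, 1 ≤ X d) :
    mk k X ξ 0 + mk k X ξ 1 + mk k X ξ 2 + 3 * k =
      k * (X 0 + X 1 + X 2) + (ξ 0 + ξ 1 + ξ 2) := by
  have e : ∀ d, k * (X d - 1) + k = k * X d := by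
    intro d
    have hq := hX d
    calc k * (X d - 1) + k = k * (X d - 1 + 1) := by ring
      _ = k * X d := by rw [Nat.sub_add_cancel hq]
  have e0 := e 0
  have e1 := e 1
  have e2 := e 2
  unfold mk
  rw [Nat.mul_add, Nat.mul_add]
  omega

end dec

/-- the two types of blocks -/
theorem block {n k m : ℕ} (hk : 1 ≤ k) (hm1 : k * n + 1 ≤ m) (hm2 : m ≤ k * n + 2)
    (x : Fin 3 → ℕ) (hx : Cell m x) :
    (Cell (n + 2) (qc k x) ∧ rc k x 0 + rc k x 1 + rc k x 2 + k * n = m + k) ∨
    (Cell (n + 1) (qc k x) ∧ rc k x 0 + rc k x 1 + rc k x 2 + k * n = m + 2 * k) := by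
  have h := sum_dec (k := k) x hx.1
  rw [hx.2] at h
  set Q := qc k x 0 + qc k x 1 + qc k x 2 with hQ
  have r0 := r_pos (k := k) x 0
  have r1 := r_pos (k := k) x 1
  have r2 := r_pos (k := k) x 2
  have s0 := r_le hk x 0
  have s1 := r_le hk x 1
  have s2 := r_le hk x 2
  have hQ1 : Q < n + 3 := by
    by_contra hc
    push Not at hc
    have : k * (n + 3) ≤ k * Q := Nat.mul_le_mul_left k hc
    rw [Nat.mul_add] at this
    omega
  have hQ2 : n < Q := by
    by_contra hc
    push Not at hc
    have : k * Q ≤ k * n := Nat.mul_le_mul_left k hc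
    omega
  have hp : ∀ d, 1 ≤ qc k x d := q_pos x
  rcases (by omega : Q = n + 1 ∨ Q = n + 2) with hQ3 | hQ3
  · right
    refine ⟨⟨hp, hQ3⟩, ?_⟩
    rw [hQ3, Nat.mul_add] at h
    omega
  · left
    refine ⟨⟨hp, hQ3⟩, ?_⟩
    rw [hQ3, Nat.mul_add] at h
    omega

theorem cell_ne {m m' : ℕ} {x : Fin 3 → ℕ} (h : Cell m x) (h' : Cell m' x) : m = m' := by
  rw [← h.2, ← h'.2]

theorem inv_cell {k m : ℕ} {ξ : Fin 3 → ℕ} (h1 : ∀ d, 1 ≤ ξ d) (h2 : ∀ d, ξ d ≤ k)
    (h3 : ξ 0 + ξ 1 + ξ 2 + m = 3 * k + 3) : Cell m (inv k ξ) := by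
  have a0 := h2 0
  have a1 := h2 1
  have a2 := h2 2
  refine ⟨fun d => ?_, ?_⟩
  · have := h2 d
    unfold inv
    omega
  · unfold inv
    omega

theorem inv_inv' {k : ℕ} {ξ : Fin 3 → ℕ} (h2 : ∀ d, ξ d ≤ k + 1) : inv k (inv k ξ) = ξ := by
  funext d
  have := h2 d
  unfold inv
  omega

theorem cell_le {m : ℕ} {x : Fin 3 → ℕ} (h : Cell m x) (d : Fin 3) : x d + 2 ≤ m := by
  have h0 := h.1 0
  have h1 := h.1 1
  have h2 := h.1 2
  have h3 := h.2
  fin_cases d <;> simp <;> omega

section product

variable {n k : ℕ} {S T : Type} {F G : (Fin 3 → ℕ) → S} {f g : (Fin 3 → ℕ) → T}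
  {U : Fin 3 → ℕ → S → Prop} {u : Fin 3 → ℕ → T → Prop}

open Classical in
/-- block product: `F × f` on the blocks with coarse sum `n+2`, `G × g` on the other ones -/
noncomputable def prodF (n k : ℕ) (F G : (Fin 3 → ℕ) → S) (f g : (Fin 3 → ℕ) → T)
    (x : Fin 3 → ℕ) : S × T :=
  if Cell (n + 2) (qc k x) then (F (qc k x), f (rc k x)) else (G (qc k x), g (inv k (rc k x)))

/-- symbol sets of the product -/
def prodU (k : ℕ) (U : Fin 3 → ℕ → S → Prop) (u : Fin 3 → ℕ → T → Prop) (d : Fin 3) (a : ℕ)
    (p : S × T) : Prop :=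
  (U d ((a - 1) / k + 1) p.1 ∧ u d ((a - 1) % k + 1) p.2) ∨
    (U d ((a - 1) / k + 2) p.1 ∧ ¬ u d ((a - 1) % k + 1) p.2)

/-- the general row lemma: `m` is `kn+2` or `kn+1`, `V` the symbol sets of the fine rows -/
theorem row_prod {m c : ℕ} (hk : 1 ≤ k) (hm1 : k * n + 1 ≤ m) (hm2 : m ≤ k * n + 2)
    (hc : c = m - k * n) {W : T → Prop} {d : Fin 3} {A i : ℕ} (hA1 : 1 ≤ A) (hi1 : 1 ≤ i)
    (hik : i ≤ k) (hF : RowBij (n + 2) F d A (U d A)) (hG : RowBij (n + 1) G d A (U d (A + 1)))
    (hf : RowBij (k + c) f d i W) (hg : RowBij (k + 3 - c) g d (k + 1 - i) (fun t => ¬ W t)) :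
    RowBij m (prodF n k F G f g) d (k * (A - 1) + i)
      (fun p => (U d A p.1 ∧ W p.2) ∨ (U d (A + 1) p.1 ∧ ¬ W p.2)) := by
  have hrow : ∀ x : Fin 3 → ℕ, 1 ≤ x d → x d = k * (A - 1) + i → qc k x d = A ∧ rc k x d = i := by
    intro x hx hxd
    have e : x d - 1 = (i - 1) + k * (A - 1) := by omega
    constructor
    · unfold qc
      rw [e, Nat.add_mul_div_left _ _ (by omega), Nat.div_eq_of_lt (by omega)]
      omega
    · unfold rc
      rw [e, Nat.add_mul_mod_self_left, Nat.mod_eq_of_lt (by omega)]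
      omega
  have up : ∀ x, Cell m x → x d = k * (A - 1) + i → Cell (n + 2) (qc k x) →
      prodF n k F G f g x = (F (qc k x), f (rc k x)) ∧ qc k x d = A ∧ rc k x d = i ∧
        Cell (k + c) (rc k x) := by
    intro x hx hxd hq
    have h1 := hrow x (hx.1 d) hxd
    refine ⟨?_, h1.1, h1.2, ?_⟩
    · unfold prodF
      rw [if_pos hq]
    · rcases block hk hm1 hm2 x hx with h | h
      · refine ⟨r_pos x, ?_⟩
        have := h.2
        omega
      · exact absurd (cell_ne hq h.1) (by omega)
  have down : ∀ x, Cell m x → x d = k * (A - 1) + i → ¬ Cell (n + 2) (qc k x) →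
      prodF n k F G f g x = (G (qc k x), g (inv k (rc k x))) ∧ qc k x d = A ∧
        inv k (rc k x) d = k + 1 - i ∧ Cell (n + 1) (qc k x) ∧
        Cell (k + 3 - c) (inv k (rc k x)) := by
    intro x hx hxd hq
    have h1 := hrow x (hx.1 d) hxd
    refine ⟨?_, h1.1, ?_, ?_, ?_⟩
    · unfold prodF
      rw [if_neg hq]
    · unfold inv
      rw [h1.2]
    · rcases block hk hm1 hm2 x hx with h | h
      · exact absurd h.1 hq
      · exact h.1
    · rcases block hk hm1 hm2 x hx with h | h
      · exact absurd h.1 hq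
      · apply inv_cell (r_pos x) (r_le hk x)
        have := h.2
        omega
  constructor
  · intro x hx hxd
    by_cases hq : Cell (n + 2) (qc k x)
    · obtain ⟨h1, h2, h3, h4⟩ := up x hx hxd hq
      rw [h1]
      left
      exact ⟨hF.1 _ hq h2, hf.1 _ h4 h3⟩
    · obtain ⟨h1, h2, h3, h4, h5⟩ := down x hx hxd hq
      rw [h1]
      right
      exact ⟨hG.1 _ h4 h2, hg.1 _ h5 h3⟩
  · rintro ⟨s, t⟩ hst
    simp only at hst
    rcases hst with ⟨hs, ht⟩ | ⟨hs, ht⟩
    · obtain ⟨X, ⟨hX1, hX2, hX3⟩, hXu⟩ := hF.2 s hs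
      obtain ⟨ξ, ⟨hξ1, hξ2, hξ3⟩, hξu⟩ := hf.2 t ht
      have hξk : ∀ e, ξ e ≤ k := by
        intro e
        have := cell_le hξ1 e
        omega
      have hqm : qc k (mk k X ξ) = X := by
        funext e
        exact q_mk X ξ e (hX1.1 e) (hξ1.1 e) (hξk e)
      have hrm : rc k (mk k X ξ) = ξ := by
        funext e
        exact r_mk X ξ e (hξ1.1 e) (hξk e)
      refine ⟨mk k X ξ, ⟨⟨?_, ?_⟩, ?_, ?_⟩, ?_⟩
      · intro e
        have := hξ1.1 e
        unfold mk
        omega
      · have h1 := sum_mk (k := k) X ξ hX1.1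
        rw [hX1.2, hξ1.2, Nat.mul_add] at h1
        omega
      · unfold mk
        rw [hX2, hξ2]
      · unfold prodF
        rw [hqm, hrm, if_pos hX1, hX3, hξ3]
      · rintro y ⟨hy1, hy2, hy3⟩
        by_cases hq : Cell (n + 2) (qc k y)
        · obtain ⟨h1, h2, h3, h4⟩ := up y hy1 hy2 hq
          rw [h1] at hy3
          have e1 := hXu (qc k y) ⟨hq, h2, (Prod.ext_iff.mp hy3).1⟩
          have e2 := hξu (rc k y) ⟨h4, h3, (Prod.ext_iff.mp hy3).2⟩
          rw [← mk_dec (k := k) y hy1.1, e1, e2]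
        · obtain ⟨h1, h2, h3, h4, h5⟩ := down y hy1 hy2 hq
          rw [h1] at hy3
          have e2 : g (inv k (rc k y)) = t := (Prod.ext_iff.mp hy3).2
          have := hg.1 _ h5 h3
          rw [e2] at this
          exact absurd ht this
    · obtain ⟨X, ⟨hX1, hX2, hX3⟩, hXu⟩ := hG.2 s hs
      obtain ⟨η, ⟨hη1, hη2, hη3⟩, hηu⟩ := hg.2 t ht
      have hηk : ∀ e, η e ≤ k := by
        intro e
        have := cell_le hη1 e
        omega
      have hξ1 : ∀ e, 1 ≤ inv k η e := by
        intro e
        have := hηk e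
        unfold inv
        omega
      have hξk : ∀ e, inv k η e ≤ k := by
        intro e
        have := hη1.1 e
        unfold inv
        omega
      have hii : inv k (inv k η) = η := inv_inv' fun e => (hηk e).trans (Nat.le_succ k)
      have hqm : qc k (mk k X (inv k η)) = X := by
        funext e
        exact q_mk X _ e (hX1.1 e) (hξ1 e) (hξk e)
      have hrm : rc k (mk k X (inv k η)) = inv k η := by
        funext e
        exact r_mk X _ e (hξ1 e) (hξk e)
      have hnot : ¬ Cell (n + 2) X := fun h => absurd (cell_ne h hX1) (by omega)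
      have hsum : inv k η 0 + inv k η 1 + inv k η 2 + (k + 3 - c) = 3 * k + 3 := by
        have h0 := hηk 0
        have h1 := hηk 1
        have h2 := hηk 2
        have h3 := hη1.2
        unfold inv
        omega
      refine ⟨mk k X (inv k η), ⟨⟨?_, ?_⟩, ?_, ?_⟩, ?_⟩
      · intro e
        have := hξ1 e
        unfold mk
        omega
      · have h1 := sum_mk (k := k) X (inv k η) hX1.1
        rw [hX1.2, Nat.mul_add] at h1
        omega
      · unfold mk
        have : inv k η d = i := by
          unfold inv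
          rw [hη2]
          omega
        rw [hX2, this]
      · unfold prodF
        rw [hqm, hrm, if_neg hnot, hii, hX3, hη3]
      · rintro y ⟨hy1, hy2, hy3⟩
        by_cases hq : Cell (n + 2) (qc k y)
        · obtain ⟨h1, h2, h3, h4⟩ := up y hy1 hy2 hq
          rw [h1] at hy3
          have e2 : f (rc k y) = t := (Prod.ext_iff.mp hy3).2
          have := hf.1 _ h4 h3
          rw [e2] at this
          exact absurd this ht
        · obtain ⟨h1, h2, h3, h4, h5⟩ := down y hy1 hy2 hq
          rw [h1] at hy3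
          have e1 := hXu (qc k y) ⟨h4, h2, (Prod.ext_iff.mp hy3).1⟩
          have e2 := hηu (inv k (rc k y)) ⟨h5, h3, (Prod.ext_iff.mp hy3).2⟩
          have e3 : rc k y = inv k η := by
            rw [← e2]
            exact (inv_inv' fun e => (r_le hk y e).trans (Nat.le_succ k)).symm
          rw [← mk_dec (k := k) y hy1.1, e1, e3]

/-- the product of two compatible pairs -/
theorem pair_prod (hk : 1 ≤ k) (hP : Pair n S F G U) (hp : Pair k T f g u) :
    Pair (k * n) (S × T) (prodF n k F G f g) (prodF n k F G g f) (prodU k U u) := by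
  have hdm : ∀ a : ℕ, 1 ≤ a → k * ((a - 1) / k) + ((a - 1) % k + 1) = a := by
    intro a ha
    have := Nat.div_add_mod (a - 1) k
    omega
  refine ⟨?_, ?_, ?_, ?_⟩
  · rintro d ⟨s, t⟩
    left
    simp only [Nat.sub_self, Nat.zero_div, Nat.zero_mod, Nat.zero_add]
    exact ⟨hP.one d s, hp.one d t⟩
  · rintro d a ⟨s, t⟩ ha1 ha2
    set A := (a - 1) / k + 1 with hA
    set i := (a - 1) % k + 1 with hi
    have hi1 : 1 ≤ i := by omega
    have hik : i ≤ k := by
      have := Nat.mod_lt (a - 1) hk
      omega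
    have hAa : k * (A - 1) + i = a := by
      rw [hA, Nat.add_sub_cancel]
      exact hdm a ha1
    have hA1 : 1 ≤ A := Nat.le_add_left _ _
    have hAn : A ≤ n + 1 := by
      by_contra hc
      push Not at hc
      have h1 : k * (n + 1) ≤ k * (A - 1) := Nat.mul_le_mul_left k (by omega)
      rw [Nat.mul_add] at h1
      omega
    have hR : prodU k U u d a (s, t) ↔ (U d A s ∧ u d i t) ∨ (U d (A + 1) s ∧ ¬ u d i t) := Iff.rfl
    rw [hR]
    rcases Nat.lt_or_ge 1 i with hi2 | hi2
    · -- i ≥ 2
      have hAn' : A ≤ n := by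
        by_contra hc
        have h2 : A = n + 1 := by omega
        rw [h2, Nat.add_sub_cancel] at hAa
        omega
      have e : k * n + 2 - a = k * (n - A) + (k + 2 - i) := by
        have h1 : k * n = k * (n - A) + k * (A - 1) + k := by
          have : n = (n - A) + (A - 1) + 1 := by omega
          calc k * n = k * ((n - A) + (A - 1) + 1) := by rw [← this]
            _ = _ := by ring
        omega
      have e1 : (k * n + 2 - a - 1) / k = n - A := by
        have : k * n + 2 - a - 1 = (k + 1 - i) + k * (n - A) := by omega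
        rw [this, Nat.add_mul_div_left _ _ hk, Nat.div_eq_of_lt (by omega), zero_add]
      have e2 : (k * n + 2 - a - 1) % k = k + 1 - i := by
        have : k * n + 2 - a - 1 = (k + 1 - i) + k * (n - A) := by omega
        rw [this, Nat.add_mul_mod_self_left, Nat.mod_eq_of_lt (by omega)]
      have hL : prodU k U u d (k * n + 2 - a) (s, t) ↔
          (U d (n - A + 1) s ∧ u d (k + 1 - i + 1) t) ∨
            (U d (n - A + 2) s ∧ ¬ u d (k + 1 - i + 1) t) := by
        unfold prodU
        rw [e1, e2]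
      rw [hL]
      have c1 := hP.compl d A s hA1 hAn
      have c2 := hP.compl d (A + 1) s (by omega) (by omega)
      have c3 := hp.compl d i t hi1 (by omega)
      rw [show n + 2 - A = n - A + 2 by omega] at c1
      rw [show n + 2 - (A + 1) = n - A + 1 by omega] at c2
      rw [show k + 2 - i = k + 1 - i + 1 by omega] at c3
      rw [c1, c2, c3]
      by_cases h1 : u d i t
      · simp [h1]
      · simp [h1]
    · have hi3 : i = 1 := by omega
      have e : k * n + 2 - a - 1 = k * (n + 1 - A) := by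
        have h1 : k * n = k * (n + 1 - A) + k * (A - 1) := by
          have : n = (n + 1 - A) + (A - 1) := by omega
          calc k * n = k * ((n + 1 - A) + (A - 1)) := by rw [← this]
            _ = _ := by ring
        omega
      have hL : prodU k U u d (k * n + 2 - a) (s, t) ↔
          (U d (n + 1 - A + 1) s ∧ u d (0 + 1) t) ∨
            (U d (n + 1 - A + 2) s ∧ ¬ u d (0 + 1) t) := by
        unfold prodU
        rw [e, Nat.mul_div_cancel_left _ hk, Nat.mul_mod_right]
      rw [hL]
      have c1 := hP.compl d A s hA1 hAn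
      rw [show n + 2 - A = n + 1 - A + 1 by omega] at c1
      have c3 := hp.one d t
      rw [c1, hi3]
      simp [c3]
  · intro d a ha1 ha2
    set A := (a - 1) / k + 1 with hA
    set i := (a - 1) % k + 1 with hi
    have hi1 : 1 ≤ i := by omega
    have hik : i ≤ k := by
      have := Nat.mod_lt (a - 1) hk
      omega
    have hAa : k * (A - 1) + i = a := by
      rw [hA, Nat.add_sub_cancel]
      exact hdm a ha1
    have hA1 : 1 ≤ A := Nat.le_add_left _ _
    have hAn : A ≤ n := by
      by_contra hc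
      push Not at hc
      have h1 : k * n ≤ k * (A - 1) := Nat.mul_le_mul_left k (by omega)
      omega
    have hgr : RowBij (k + 3 - 2) g d (k + 1 - i) (fun t => ¬ u d i t) := by
      have h1 := hp.hG d (k + 1 - i) (by omega) (by omega)
      have h2 : (u d (k + 1 - i + 1)) = fun t => ¬ u d i t := by
        funext t
        have c3 := hp.compl d i t hi1 (by omega)
        rw [show k + 2 - i = k + 1 - i + 1 by omega] at c3
        exact propext c3
      rw [h2] at h1
      exact h1
    have h := row_prod (n := n) (k := k) (m := k * n + 2) (c := 2) (F := F) (G := G) (f := f) (g := g)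
      (U := U) (W := u d i) (d := d) (A := A) (i := i) hk (by omega) (by omega) (by omega) hA1 hi1 hik
      (hP.hF d A hA1 hAn) (hP.hG d A hA1 hAn) (hp.hF d i hi1 hik) hgr
    rw [hAa] at h
    exact h
  · intro d a ha1 ha2
    set A := (a - 1) / k + 1 with hA
    set i := (a - 1) % k + 1 with hi
    have hi1 : 1 ≤ i := by omega
    have hik : i ≤ k := by
      have := Nat.mod_lt (a - 1) hk
      omega
    have hAa : k * (A - 1) + i = a := by
      rw [hA, Nat.add_sub_cancel]
      exact hdm a ha1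
    have hA1 : 1 ≤ A := Nat.le_add_left _ _
    have hAn : A ≤ n := by
      by_contra hc
      push Not at hc
      have h1 : k * n ≤ k * (A - 1) := Nat.mul_le_mul_left k (by omega)
      omega
    have hfr : RowBij (k + 3 - 1) f d (k + 1 - i) (fun t => ¬ u d (i + 1) t) := by
      have h1 := hp.hF d (k + 1 - i) (by omega) (by omega)
      have h2 : (u d (k + 1 - i)) = fun t => ¬ u d (i + 1) t := by
        funext t
        have c3 := hp.compl d (i + 1) t (by omega) (by omega)
        rw [show k + 2 - (i + 1) = k + 1 - i by omega] at c3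
        exact propext c3
      rw [h2] at h1
      exact h1
    have h := row_prod (n := n) (k := k) (m := k * n + 1) (c := 1) (F := F) (G := G) (f := g) (g := f)
      (U := U) (W := u d (i + 1)) (d := d) (A := A) (i := i) hk (by omega) (by omega) (by omega) hA1
      hi1 hik (hP.hF d A hA1 hAn) (hP.hG d A hA1 hAn) (hp.hG d i hi1 hik) hfr
    rw [hAa] at h
    have hU : (fun p : S × T => (U d A p.1 ∧ u d (i + 1) p.2) ∨ (U d (A + 1) p.1 ∧ ¬ u d (i + 1) p.2)) =
        prodU k U u d (a + 1) := by
      funext p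
      apply propext
      rcases Nat.lt_or_ge i k with hlt | hge
      · have e1 : (a + 1 - 1) / k = A - 1 := by
          have : a + 1 - 1 = i + k * (A - 1) := by omega
          rw [this, Nat.add_mul_div_left _ _ hk, Nat.div_eq_of_lt hlt, zero_add]
        have e2 : (a + 1 - 1) % k = i := by
          have : a + 1 - 1 = i + k * (A - 1) := by omega
          rw [this, Nat.add_mul_mod_self_left, Nat.mod_eq_of_lt hlt]
        unfold prodU
        rw [e1, e2, show A - 1 + 1 = A by omega, show A - 1 + 2 = A + 1 by omega]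
      · have hik' : i = k := by omega
        have e0 : a + 1 - 1 = k * A := by
          have : k * A = k * (A - 1) + k := by
            calc k * A = k * (A - 1 + 1) := by rw [Nat.sub_add_cancel hA1]
              _ = _ := by ring
          omega
        have e1 : (a + 1 - 1) / k = A := by
          rw [e0, Nat.mul_div_cancel_left _ hk]
        have e2 : (a + 1 - 1) % k = 0 := by
          rw [e0, Nat.mul_mod_right]
        unfold prodU
        rw [e1, e2, hik']
        have c1 : ¬ u d (k + 1) p.2 := by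
          have := hp.compl d 1 p.2 le_rfl (by omega)
          rw [show k + 2 - 1 = k + 1 by omega] at this
          rw [this]
          exact not_not.mpr (hp.one d p.2)
        have c2 : u d (0 + 1) p.2 := hp.one d p.2
        simp [c1, c2]
    rw [hU] at h
    exact h

end product

end Pool.Agent.H15.LT
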